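import Pool.Agent.H18.VZ.Targets

set_option autoImplicit false

namespace Pool.Agent.H1.VZ

section pseudo

open Polynomial

variable {A : Type} [CommRing A]

theorem DVR_div (h : A) (H : Ideal (Polynomial A)) (hh : C h ∈ H) (n : ℕ)
    (hmin : ∀ m < n, ∀ c ∈ H, c.degree < ((m + 1 : ℕ) : WithBot ℕ) → h ∣ c.coeff m)
    (G : Polynomial A) (hG : G ∈ H) (hGd : G.degree < ((n + 1 : ℕ) : WithBot ℕ)) (d : ℕ) :
    ∀ c ∈ H, c.degree < (d : WithBot ℕ) →
      ∃ (l : ℕ) (q r : Polynomial A), C (G.coeff n) ^ l * c = G * q + C h * r := by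
  have hG0 : ∀ m, n + 1 ≤ m → G.coeff m = 0 := (degree_lt_iff_coeff_zero _ _).mp hGd
  induction d with
  | zero =>
    intro c _ hd
    have h1 : c = 0 := by
      ext m
      rw [(degree_lt_iff_coeff_zero _ _).mp hd m (Nat.zero_le m), coeff_zero]
    exact ⟨0, 0, 0, by rw [h1]; ring⟩
  | succ d ih =>
    intro c hc hd
    have hc0 : ∀ m, d + 1 ≤ m → c.coeff m = 0 := (degree_lt_iff_coeff_zero _ _).mp hd
    rcases Nat.lt_or_ge d n with hdn | hdn
    · obtain ⟨b, hb⟩ := hmin d hdn c hc hd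
      obtain ⟨l, q, r, h1⟩ := ih (c - C h * monomial d b) (H.sub_mem hc (H.mul_mem_right _ hh)) (by
        rw [degree_lt_iff_coeff_zero]
        intro m hm
        rw [coeff_sub, coeff_C_mul, coeff_monomial]
        rcases Nat.lt_or_ge d m with h2 | h2
        · rw [hc0 m h2, if_neg (by omega), mul_zero, sub_zero]
        · have h3 : m = d := le_antisymm h2 hm
          rw [h3, if_pos rfl, hb, sub_self])
      refine ⟨l, q, r + C (G.coeff n) ^ l * monomial d b, ?_⟩
      have h2 : C (G.coeff n) ^ l * c = C (G.coeff n) ^ l * (c - C h * monomial d b) +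
          C h * (C (G.coeff n) ^ l * monomial d b) := by ring
      rw [h2, h1]
      ring
    · obtain ⟨l, q, r, h1⟩ := ih (C (G.coeff n) * c - G * monomial (d - n) (c.coeff d))
        (H.sub_mem (H.mul_mem_left _ hc) (H.mul_mem_right _ hG)) (by
        rw [degree_lt_iff_coeff_zero]
        intro m hm
        have h3 : (G * monomial (d - n) (c.coeff d)).coeff m =
            G.coeff (m - (d - n)) * c.coeff d := by
          have h4 := coeff_mul_monomial G (d - n) (m - (d - n)) (c.coeff d)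
          rwa [Nat.sub_add_cancel (by omega)] at h4
        rw [coeff_sub, coeff_C_mul, h3]
        rcases Nat.lt_or_ge d m with h2 | h2
        · rw [hc0 m h2, mul_zero, hG0 (m - (d - n)) (by omega), zero_mul, sub_zero]
        · have h3 : m = d := le_antisymm h2 hm
          have h4 : m - (d - n) = n := by omega
          rw [h4, h3, sub_self])
      refine ⟨l + 1, q + C (G.coeff n) ^ l * monomial (d - n) (c.coeff d), r, ?_⟩
      have h2 : C (G.coeff n) ^ (l + 1) * c =
          C (G.coeff n) ^ l * (C (G.coeff n) * c - G * monomial (d - n) (c.coeff d)) +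
          G * (C (G.coeff n) ^ l * monomial (d - n) (c.coeff d)) := by ring
      rw [h2, h1]
      ring

theorem DVR_poly (h : A) (hu : ¬ IsUnit h) (H : Ideal (Polynomial A)) [H.IsPrime]
    (hH : ∀ a, C a ∈ H ↔ h ∣ a) (P : Polynomial A) (hP : P.Monic) (hPH : P ∈ H)
    (hP' : derivative P ∉ H) (c : Polynomial A) (hc : c ∈ H) :
    ∃ s c' : Polynomial A, s ∉ H ∧ P ∣ s * c - C h * c' := by
  classical
  have hh : C h ∈ H := (hH h).mpr dvd_rfl
  have hex : ∃ n, ∃ G ∈ H, G.degree < ((n + 1 : ℕ) : WithBot ℕ) ∧ ¬ h ∣ G.coeff n := by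
    refine ⟨P.natDegree, P, hPH, ?_, ?_⟩
    · refine lt_of_le_of_lt degree_le_natDegree ?_
      exact_mod_cast Nat.lt_succ_self _
    · have h1 : P.coeff P.natDegree = 1 := hP
      rw [h1]
      exact fun h2 => hu (isUnit_of_dvd_one h2)
  obtain ⟨G, hG, hGd, hGn⟩ := Nat.find_spec hex
  set n := Nat.find hex with hn
  have hmin : ∀ m < n, ∀ c ∈ H, c.degree < ((m + 1 : ℕ) : WithBot ℕ) → h ∣ c.coeff m := by
    intro m hm c hc hcd
    by_contra h1
    exact Nat.find_min hex hm ⟨c, hc, hcd, h1⟩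
  have hg : ∀ l : ℕ, C (G.coeff n) ^ l ∉ H := fun l h1 =>
    hGn ((hH _).mp (Ideal.IsPrime.mem_of_pow_mem ‹_› l h1))
  have hdiv : ∀ c ∈ H, ∃ (l : ℕ) (q r : Polynomial A),
      C (G.coeff n) ^ l * c = G * q + C h * r := fun c hc =>
    DVR_div h H hh n hmin G hG hGd (c.natDegree + 1) c hc (by
      refine lt_of_le_of_lt degree_le_natDegree ?_
      exact_mod_cast Nat.lt_succ_self _)
  obtain ⟨m, Q2, r0, h1⟩ := hdiv P hPH
  have hQ2 : Q2 ∉ H := by
    intro h2
    have h3 := congrArg derivative h1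
    rw [← C_pow, derivative_C_mul, derivative_add, derivative_mul, derivative_C_mul] at h3
    have h4 : C (G.coeff n ^ m) * derivative P ∈ H := by
      rw [h3]
      exact H.add_mem (H.add_mem (H.mul_mem_left _ h2) (H.mul_mem_right _ hG))
        (H.mul_mem_right _ hh)
    rcases Ideal.IsPrime.mem_or_mem ‹_› h4 with h5 | h5
    · rw [C_pow] at h5
      exact hg m h5
    · exact hP' h5
  obtain ⟨l, q, r1, h2⟩ := hdiv c hc
  refine ⟨C (G.coeff n) ^ l * Q2, Q2 * r1 - r0 * q, fun h3 => ?_, C (G.coeff n) ^ m * q, ?_⟩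
  · exact (Ideal.IsPrime.mem_or_mem ‹_› h3).elim (hg l) hQ2
  · calc C (G.coeff n) ^ l * Q2 * c - C h * (Q2 * r1 - r0 * q)
        = (C (G.coeff n) ^ l * c) * Q2 - C h * (Q2 * r1 - r0 * q) := by ring
      _ = (G * Q2 + C h * r0) * q := by rw [h2]; ring
      _ = P * (C (G.coeff n) ^ m * q) := by rw [← h1]; ring

end pseudo

open MvPolynomial
open Pool.Agent.H18.HIT Pool.Agent.H18.HX Pool.Agent.H18.VZ

theorem DVR_up {N : ℕ} {k : Type} [Field k] (q : Po N k) :
    finSuccEquiv k N (up q) = Polynomial.C q := by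
  unfold up
  induction q using MvPolynomial.induction_on with
  | C a => simp [finSuccEquiv_apply]
  | add p q hp hq => rw [map_add, map_add, map_add, hp, hq]
  | mul_X p i hp =>
    rw [map_mul, map_mul, hp, rename_X, finSuccEquiv_X_succ, map_mul]

theorem DVR_der {N : ℕ} {k : Type} [Field k] (P : Po (N + 1) k) :
    finSuccEquiv k N (pderiv 0 P) = Polynomial.derivative (finSuccEquiv k N P) := by
  induction P using MvPolynomial.induction_on with
  | C a => simp [finSuccEquiv_apply]
  | add p q hp hq => rw [map_add, map_add, map_add, Polynomial.derivative_add, hp, hq]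
  | mul_X p i hp =>
    rw [pderiv_mul, map_add, map_mul, map_mul, hp, map_mul, Polynomial.derivative_mul]
    refine Fin.cases ?_ (fun j => ?_) i
    · rw [finSuccEquiv_X_zero, pderiv_X_self]
      simp
    · rw [finSuccEquiv_X_succ, pderiv_X_of_ne (Fin.succ_ne_zero j)]
      simp

theorem pf_DVR : T_DVR := by
  intro N r k _ _ _ P H h hP hH hd c hc
  have hpr := hH.prime
  have hmem' : ∀ x, finSuccEquiv k N x ∈ H.comap (finSuccEquiv k N).symm ↔ x ∈ H := by
    intro x
    rw [Ideal.mem_comap, AlgEquiv.symm_apply_apply]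
  have hpr' : (H.comap (finSuccEquiv k N).symm).IsPrime := Ideal.comap_isPrime _ _
  obtain ⟨s, c', hs, e, he⟩ := DVR_poly h hH.irr.not_isUnit (H.comap (finSuccEquiv k N).symm)
    (fun a => by rw [← DVR_up, hmem']; exact hH.iff a) (finSuccEquiv k N P) hP.mon
    ((hmem' P).mpr hH.mem) (fun h1 => hd (by rw [← DVR_der] at h1; exact (hmem' _).mp h1))
    (finSuccEquiv k N c) ((hmem' c).mpr hc)
  refine ⟨(finSuccEquiv k N).symm s, (finSuccEquiv k N).symm c', fun h1 => hs h1,
    (finSuccEquiv k N).symm e, ?_⟩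
  apply (finSuccEquiv k N).injective
  rw [map_sub, map_mul, map_mul, map_mul, DVR_up, AlgEquiv.apply_symm_apply,
    AlgEquiv.apply_symm_apply, AlgEquiv.apply_symm_apply]
  exact he

end Pool.Agent.H1.VZ
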