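import Pool.Agent.H18.VZ.Targets

set_option autoImplicit false

open MvPolynomial
open Pool.Agent.H18.HIT Pool.Agent.H18.HX Pool.Agent.H18.VZ

namespace Pool.Agent.H1.VZ

/-- the transcendence degree drops for a proper quotient -/
theorem TDG_drop {k S S' : Type} [Field k] [CommRing S] [IsDomain S] [CommRing S'] [IsDomain S']
    [Algebra k S] [Algebra k S'] (π : S →ₐ[k] S') (hπ : Function.Surjective π) (c : S)
    (hc : c ≠ 0) (hc' : π c = 0) : Algebra.trdeg k S' + 1 ≤ Algebra.trdeg k S := by
  obtain ⟨ι, x', hx'⟩ := exists_isTranscendenceBasis' k S'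
  rw [← hx'.cardinalMk_eq_trdeg]
  choose x hx using fun i => hπ (x' i)
  have hcomp : (π : S → S') ∘ x = x' := funext hx
  have hxi : AlgebraicIndependent k x := by
    refine AlgebraicIndependent.of_comp π ?_
    rw [hcomp]
    exact hx'.1
  have htr : Transcendental (Algebra.adjoin k (Set.range x)) c := by
    intro halg
    obtain ⟨r, hr, hdvd⟩ := halg.exists_nonzero_dvd (mem_nonZeroDivisors_of_ne_zero hc)
    apply hr
    have hr2 : (r : S) ∈ (aeval x : MvPolynomial ι k →ₐ[k] S).range := by
      rw [← Algebra.adjoin_range_eq_range_aeval]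
      exact r.2
    obtain ⟨p, hp⟩ := hr2
    have hp' : aeval x p = (r : S) := hp
    have h1 : π (r : S) = 0 := by
      obtain ⟨u, hu⟩ := hdvd
      have hu' : (r : S) = c * u := hu
      rw [hu', map_mul, hc', zero_mul]
    have h2 : aeval x' p = 0 := by
      rw [← hcomp, ← h1, ← hp']
      have h3 : (aeval ((π : S → S') ∘ x) : MvPolynomial ι k →ₐ[k] S') = π.comp (aeval x) := by
        apply algHom_ext
        intro i
        simp
      rw [h3]
      rfl
    have h4 : p = 0 := (algebraicIndependent_iff.mp hx'.1) p h2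
    rw [h4, map_zero] at hp'
    exact Subtype.ext hp'.symm
  have h5 := ((hxi.option_iff_transcendental c).mpr htr).cardinalMk_le_trdeg
  rwa [Cardinal.mk_option] at h5

/-- the transcendence degree of an algebraic extension -/
theorem TDG_alg {k S A : Type} [Field k] [CommRing S] [CommRing A] [IsDomain A]
    [Algebra k S] [Algebra k A] (φ : S →ₐ[k] A) (hφ : Function.Injective φ)
    (halg : ∀ y : A, ∃ p : Polynomial S, p ≠ 0 ∧ p.eval₂ (φ : S →+* A) y = 0) :
    Algebra.trdeg k A = Algebra.trdeg k S := by
  letI : Algebra S A := (φ : S →+* A).toAlgebra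
  haveI : IsScalarTower k S A := IsScalarTower.of_algebraMap_eq fun r => (φ.commutes r).symm
  haveI : FaithfulSMul S A := (faithfulSMul_iff_algebraMap_injective S A).mpr hφ
  haveI : Nontrivial S := (RingHom.domain_nontrivial (φ : S →+* A))
  haveI : Algebra.IsAlgebraic S A := ⟨fun y => by
    obtain ⟨p, hp, hy⟩ := halg y
    exact ⟨p, hp, hy⟩⟩
  rw [← trdeg_add_eq k S (A := A), trdeg_eq_zero (R := S) (A := A), add_zero]

theorem TDG_up {N : ℕ} {k : Type} [Field k] (q : Po N k) :
    finSuccEquiv k N (up q) = Polynomial.C q := by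
  unfold up
  induction q using MvPolynomial.induction_on with
  | C a => simp [finSuccEquiv_apply]
  | add p q hp hq => rw [map_add, map_add, map_add, hp, hq]
  | mul_X p i hp =>
    rw [map_mul, map_mul, hp, rename_X, finSuccEquiv_X_succ, map_mul]

/-- The coordinate ring of a hypersurface has dimension at least `N - 1`. -/
theorem TDG_ge {N : ℕ} {k : Type} [Field k] {P : Po (N + 1) k} {E : Ideal (Po (N + 1) k)}
    {q : Po N k} (hE : Pdv P E q) :
    ((N - 1 : ℕ) : Cardinal) ≤ Algebra.trdeg k (Po (N + 1) k ⧸ E) := by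
  classical
  have hq0 := hE.irr.ne_zero
  obtain ⟨i₀, hi₀⟩ : ∃ i, degreeOf i q ≠ 0 := by
    by_contra hno
    have h1 : ∀ i, degreeOf i q = 0 := fun i => by
      by_contra h2
      exact hno ⟨i, h2⟩
    have h2 : q.totalDegree = 0 := by
      rw [totalDegree_eq_zero_iff]
      intro m hm x
      have h3 := monomial_le_degreeOf x hm
      rw [h1 x] at h3
      exact Nat.le_zero.mp h3
    rw [totalDegree_eq_zero_iff_eq_C] at h2
    apply hE.irr.not_isUnit
    rw [h2]
    refine IsUnit.map C (isUnit_iff_ne_zero.mpr fun h3 => hq0 ?_)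
    rw [h2, h3, map_zero]
  have hind : AlgebraicIndependent k (fun l : {l : Fin N // l ≠ i₀} =>
      (Ideal.Quotient.mk E (X l.1.succ) : Po (N + 1) k ⧸ E)) := by
    rw [algebraicIndependent_iff]
    intro p hp
    have h1 : aeval (fun l : {l : Fin N // l ≠ i₀} =>
        (Ideal.Quotient.mk E (X l.1.succ) : Po (N + 1) k ⧸ E)) p =
        Ideal.Quotient.mk E (up (rename Subtype.val p)) := by
      have h2 : (aeval (fun l : {l : Fin N // l ≠ i₀} =>
          (Ideal.Quotient.mk E (X l.1.succ) : Po (N + 1) k ⧸ E))) =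
          (Ideal.Quotient.mkₐ k E).comp ((rename Fin.succ).comp
            (rename (Subtype.val : {l : Fin N // l ≠ i₀} → Fin N))) := by
        apply algHom_ext
        intro i
        simp
      rw [h2]
      rfl
    rw [h1, Ideal.Quotient.eq_zero_iff_mem, hE.iff] at hp
    by_contra hp0
    have h3 : rename (Subtype.val : {l : Fin N // l ≠ i₀} → Fin N) p ≠ 0 := fun h4 =>
      hp0 (rename_injective _ Subtype.val_injective (by rw [h4, map_zero]))
    obtain ⟨u, hu⟩ := hp
    have hu0 : u ≠ 0 := fun h4 => h3 (by rw [hu, h4, mul_zero])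
    have h4 : degreeOf i₀ (rename (Subtype.val : {l : Fin N // l ≠ i₀} → Fin N) p) ≤ 0 := by
      rw [degreeOf_le_iff]
      intro m hm
      rw [support_rename_of_injective Subtype.val_injective, Finset.mem_image] at hm
      obtain ⟨m', _, rfl⟩ := hm
      rw [Finsupp.mapDomain_of_notMem_range]
      rintro ⟨l, hl⟩
      exact l.2 hl
    rw [hu, degreeOf_mul_eq hq0 hu0] at h4
    omega
  have h1 := hind.cardinalMk_le_trdeg
  refine le_trans (le_of_eq ?_) h1
  rw [Cardinal.mk_fintype, Fintype.card_subtype_compl, Fintype.card_fin,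
    Fintype.card_subtype_eq]

/-- The coordinate ring of a hypersurface has dimension at most `N - 1`. -/
theorem TDG_le {N : ℕ} {k : Type} [Field k] {P : Po (N + 1) k} {H : Ideal (Po (N + 1) k)}
    {h : Po N k} (hP : Mny P) (hH : Pdv P H h) :
    Algebra.trdeg k (Po (N + 1) k ⧸ H) + 1 ≤ (N : Cardinal) := by
  haveI := hH.prime
  haveI : IsDomain (Po (N + 1) k ⧸ H) := Ideal.Quotient.isDomain H
  let f : Po N k →ₐ[k] (Po (N + 1) k ⧸ H) :=
    (Ideal.Quotient.mkₐ k H).comp (rename Fin.succ)
  have hf : ∀ c, f c = Ideal.Quotient.mk H (up c) := fun c => rfl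
  have h1 : Algebra.trdeg k f.range + 1 ≤ Algebra.trdeg k (Po N k) := by
    refine TDG_drop f.rangeRestrict f.rangeRestrict_surjective h hH.irr.ne_zero ?_
    refine Subtype.ext ?_
    show f h = 0
    rw [hf, Ideal.Quotient.eq_zero_iff_mem]
    exact (hH.iff h).mpr dvd_rfl
  rw [MvPolynomial.trdeg_of_isDomain, Cardinal.mk_fin, Cardinal.lift_natCast] at h1
  have hint : ∀ c : Po (N + 1) k, IsIntegral f.range (Ideal.Quotient.mk H c) := by
    intro c
    induction c using MvPolynomial.induction_on with
    | C a =>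
      have h2 : (Ideal.Quotient.mk H (C a) : Po (N + 1) k ⧸ H) =
          algebraMap f.range (Po (N + 1) k ⧸ H) (algebraMap k f.range a) := rfl
      rw [h2]
      exact isIntegral_algebraMap
    | add p q hp hq =>
      rw [map_add]
      exact hp.add hq
    | mul_X p i hp =>
      rw [map_mul]
      refine hp.mul ?_
      refine Fin.cases ?_ (fun j => ?_) i
      · refine ⟨(finSuccEquiv k N P).map (f.rangeRestrict : Po N k →+* f.range),
          hP.map _, ?_⟩
        rw [Polynomial.eval₂_map]
        have h3 : ∀ u : Po (N + 1) k, Polynomial.eval₂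
            ((algebraMap f.range (Po (N + 1) k ⧸ H)).comp (f.rangeRestrict : Po N k →+* f.range))
            (Ideal.Quotient.mk H (X 0)) (finSuccEquiv k N u) = Ideal.Quotient.mk H u := by
          intro u
          have h4 : ((Polynomial.eval₂RingHom
            ((algebraMap f.range (Po (N + 1) k ⧸ H)).comp (f.rangeRestrict : Po N k →+* f.range))
            (Ideal.Quotient.mk H (X 0))).comp (finSuccEquiv k N : Po (N + 1) k →+* _)) =
            Ideal.Quotient.mk H := by
            apply MvPolynomial.ringHom_ext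
            · intro a
              simp only [RingHom.comp_apply, RingHom.coe_coe, Polynomial.coe_eval₂RingHom,
                finSuccEquiv_apply, eval₂Hom_C, Polynomial.eval₂_C]
              show f (C a) = _
              rw [hf]
              unfold up
              rw [rename_C]
            · intro i
              refine Fin.cases ?_ (fun j => ?_) i
              · simp only [RingHom.comp_apply, RingHom.coe_coe, Polynomial.coe_eval₂RingHom,
                  finSuccEquiv_X_zero, Polynomial.eval₂_X]
              · simp only [RingHom.comp_apply, RingHom.coe_coe, Polynomial.coe_eval₂RingHom,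
                  finSuccEquiv_X_succ, Polynomial.eval₂_C]
                show f (X j) = _
                rw [hf]
                unfold up
                rw [rename_X]
          exact RingHom.congr_fun h4 u
        rw [h3, Ideal.Quotient.eq_zero_iff_mem]
        exact hH.mem
      · have h2 : (Ideal.Quotient.mk H (X j.succ) : Po (N + 1) k ⧸ H) =
            algebraMap f.range (Po (N + 1) k ⧸ H) (f.rangeRestrict (X j)) := by
          show _ = f (X j)
          rw [hf]
          unfold up
          rw [rename_X]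
        rw [h2]
        exact isIntegral_algebraMap
  haveI : Algebra.IsAlgebraic f.range (Po (N + 1) k ⧸ H) := ⟨fun y => by
    obtain ⟨c, rfl⟩ := Ideal.Quotient.mk_surjective y
    exact (hint c).isAlgebraic⟩
  rw [← trdeg_add_eq k f.range (A := Po (N + 1) k ⧸ H),
    trdeg_eq_zero (R := f.range) (A := Po (N + 1) k ⧸ H), add_zero]
  exact h1

theorem pf_TDG : T_TDG := by
  intro N k _ _ _ P H E h q hP hH hE E' hE' hHE hφ
  obtain ⟨φ, hφi, hφa⟩ := hφ
  by_contra hne
  haveI := hH.prime
  haveI := hE.prime
  haveI := hE'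
  haveI : IsDomain (Po (N + 1) k ⧸ H) := Ideal.Quotient.isDomain H
  haveI : IsDomain (Po (N + 1) k ⧸ E) := Ideal.Quotient.isDomain E
  haveI : IsDomain (Po (N + 1) k ⧸ E') := Ideal.Quotient.isDomain E'
  obtain ⟨c, hc, hcH⟩ : ∃ c ∈ E', c ∉ H := by
    by_contra hno
    refine hne (le_antisymm (fun c hc => ?_) hHE)
    by_contra h1
    exact hno ⟨c, hc, h1⟩
  have h1 : Algebra.trdeg k (Po (N + 1) k ⧸ E') + 1 ≤ Algebra.trdeg k (Po (N + 1) k ⧸ H) := by
    refine TDG_drop (Ideal.Quotient.factorₐ k hHE) ?_ (Ideal.Quotient.mk H c) ?_ ?_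
    · intro y
      obtain ⟨u, rfl⟩ := Ideal.Quotient.mk_surjective y
      exact ⟨Ideal.Quotient.mk H u, rfl⟩
    · rw [Ne, Ideal.Quotient.eq_zero_iff_mem]
      exact hcH
    · show Ideal.Quotient.mk E' c = 0
      rw [Ideal.Quotient.eq_zero_iff_mem]
      exact hc
  have h2 : Algebra.trdeg k (Po (N + 1) k ⧸ E) = Algebra.trdeg k (Po (N + 1) k ⧸ E') := by
    refine TDG_alg φ hφi fun y => ?_
    obtain ⟨n, a, ha, hs⟩ := hφa y
    refine ⟨∑ i : Fin (n + 1), Polynomial.monomial (i : ℕ) (a i), fun h3 => ha ?_, ?_⟩
    · have h4 := congrArg (fun p => Polynomial.coeff p n) h3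
      simp only [Polynomial.finsetSum_coeff, Polynomial.coeff_monomial,
        Polynomial.coeff_zero] at h4
      rw [Finset.sum_eq_single (Fin.last n)] at h4
      · rwa [if_pos (Fin.val_last n)] at h4
      · intro i _ hi
        rw [if_neg]
        intro h5
        exact hi (Fin.ext (by rw [h5, Fin.val_last]))
      · intro h5
        exact absurd (Finset.mem_univ _) h5
    · rw [Polynomial.eval₂_finsetSum]
      simp only [Polynomial.eval₂_monomial]
      exact hs
  have h3 := TDG_ge hE
  have h4 := TDG_le hP hH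
  rw [h2] at h3
  have h5 : ((N - 1 : ℕ) : Cardinal) + 1 + 1 ≤ (N : Cardinal) :=
    le_trans (add_le_add_left (le_trans (add_le_add_left h3 1) h1) 1) h4
  have h6 : (N - 1) + 1 + 1 ≤ N := by exact_mod_cast h5
  omega

end Pool.Agent.H1.VZ
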